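import Pool.Agent.H308R2.ZS.Stubs

/-! Structure of the Jiang–Su algebra. -/

set_option autoImplicit false

open scoped ComplexConjugate Kronecker Matrix.Norms.L2Operator

namespace Pool.Agent.H308R2.ZS.T_JSTR

open Pool.Agent.H923R2.FP Pool.Agent.H923R2.FZ Pool.Agent.H308R2.ZS

/-- `lft` as a linear map -/
noncomputable def lftL (n : ℕ) : Matrix (Fin (n + 1)) (Fin (n + 1)) ℂ →ₗ[ℂ] MM n where
  toFun := lft n
  map_add' x y := (lft_add n x y).symm
  map_smul' c x := lft_smul n c x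

/-- `rgt` as a linear map -/
noncomputable def rgtL (n : ℕ) : Matrix (Fin (n + 2)) (Fin (n + 2)) ℂ →ₗ[ℂ] MM n where
  toFun := rgt n
  map_add' x y := (rgt_add n x y).symm
  map_smul' c x := rgt_smul n c x

theorem isClosed_dimDrop (n : ℕ) : IsClosed (dimDrop n : Set C(unitInterval, MM n)) := by
  have h1 : IsClosed ((LinearMap.range (lftL n) : Submodule ℂ (MM n)) : Set (MM n)) :=
    Submodule.closed_of_finiteDimensional _
  have h2 : IsClosed ((LinearMap.range (rgtL n) : Submodule ℂ (MM n)) : Set (MM n)) :=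
    Submodule.closed_of_finiteDimensional _
  have c0 : Continuous fun F : C(unitInterval, MM n) => F 0 := continuous_eval_const _
  have c1 : Continuous fun F : C(unitInterval, MM n) => F 1 := continuous_eval_const _
  have h3 : (dimDrop n : Set C(unitInterval, MM n)) =
      (fun F : C(unitInterval, MM n) => F 0) ⁻¹' (LinearMap.range (lftL n) : Set (MM n)) ∩
      (fun F : C(unitInterval, MM n) => F 1) ⁻¹' (LinearMap.range (rgtL n) : Set (MM n)) := by
    ext F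
    constructor
    · rintro ⟨⟨x, hx⟩, y, hy⟩
      exact ⟨⟨x, hx.symm⟩, ⟨y, hy.symm⟩⟩
    · rintro ⟨⟨x, hx⟩, ⟨y, hy⟩⟩
      exact ⟨⟨x, hx.symm⟩, y, hy.symm⟩
  rw [h3]
  exact (h1.preimage c0).inter (h2.preimage c1)

theorem norm_le (n : ℕ) (B : Type) [CStarAlgebra B] (d : dimDrop n →⋆ₐ[ℂ] B) (x : dimDrop n) :
    ‖d x‖ ≤ ‖x‖ := by
  have : IsClosed (dimDrop n : Set C(unitInterval, MM n)) := isClosed_dimDrop n
  exact NonUnitalStarAlgHom.norm_apply_le d x

theorem t_JSTR (hPHM : S_PHM) (hREL : S_REL) (hRWB : S_RWB) (hSPEC : S_SPEC) (hZGEN : S_ZGEN) :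
    S_JSTR := by
  intro Z _ τ hZ
  obtain ⟨n, D, hmono, htend, hcl, hiso, hdense⟩ := hZ.lim
  obtain ⟨Θ⟩ : Nonempty (∀ k, dimDrop (n k) ≃⋆ₐ[ℂ] D k) := ⟨fun k => (hiso k).some⟩
  choose φ0 k0 v0 hvals using fun k => hPHM (n k)
  let d : ∀ k, dimDrop (n k) →⋆ₐ[ℂ] Z := fun k =>
    (D k).subtype.comp (Θ k : dimDrop (n k) →⋆ₐ[ℂ] D k)
  have hdval : ∀ k x, d k x = (Θ k x : Z) := fun k x => rfl
  have hdinj : ∀ k, Function.Injective (d k) := by
    intro k x y hxy
    exact (Θ k).injective (Subtype.ext hxy)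
  refine ⟨n, D, fun k i j => d k (φ0 k i j), fun k => d k (v0 k), hmono, htend, hcl, hdense,
    fun k i j => (Θ k (φ0 k i j)).2, fun k => (Θ k (v0 k)).2, fun k => ?_, fun k => ?_, ?_⟩
  · exact hRWB _ Z (n k) (φ0 k) (k0 k) (v0 k) (hREL _ _ _ _ (hvals k)) (d k)
  · intro z hz
    rw [← SetLike.mem_coe, StarSubalgebra.topologicalClosure_coe, Metric.mem_closure_iff]
    intro ε hε
    obtain ⟨y, hy, hyε⟩ := hZGEN (n k) (φ0 k) (k0 k) (v0 k) (hvals k) ((Θ k).symm ⟨z, hz⟩) ε hε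
    refine ⟨d k y, ?_, ?_⟩
    · have h1 : d k y ∈ (StarAlgebra.adjoin ℂ
          ((Set.range fun p : Fin (n k + 1) × Fin (n k + 1) => φ0 k p.1 p.2) ∪ {v0 k})).map (d k) :=
        ⟨y, hy, rfl⟩
      rw [StarAlgHom.map_adjoin, Set.image_union, Set.image_singleton, ← Set.range_comp] at h1
      exact h1
    · have h2 : z = d k ((Θ k).symm ⟨z, hz⟩) := by
        rw [hdval]
        simp
      rw [dist_eq_norm]
      nth_rewrite 1 [h2]
      rw [← map_sub]
      exact (norm_le (n k) Z (d k) _).trans_lt hyε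
  · intro B _ τ' hτ' e he k
    have h1 := hRWB _ B (n k) (φ0 k) (k0 k) (v0 k) (hREL _ _ _ _ (hvals k)) (e.comp (d k))
    have h2 := hSPEC (n k) (φ0 k) (k0 k) (v0 k) (hvals k) B τ' hτ' (e.comp (d k))
      (he.comp (hdinj k))
    refine ⟨h1, ?_⟩
    have h3 : e (∑ m, d k (φ0 k m m)) = (e.comp (d k)) (∑ m, φ0 k m m) := by
      rw [StarAlgHom.comp_apply, map_sum (d k)]
    rw [h3]
    exact h2

end Pool.Agent.H308R2.ZS.T_JSTR
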