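import Pool.Agent.H306R2.RZ.Defs2

set_option autoImplicit false

namespace Pool.Agent.H615R2.RZTRa

open Finset Filter Topology MeasureTheory Pool.Agent.H306R2.RZ

lemma sum_mu (m : ℕ) :
    ∑ p ∈ m.divisorsAntidiagonal, ((ArithmeticFunction.moebius p.2 : ℤ) : ℝ) =
      if m = 1 then 1 else 0 := by
  have h := congrArg (fun f : ArithmeticFunction ℤ => f m)
    ArithmeticFunction.coe_zeta_mul_moebius
  simp only [ArithmeticFunction.mul_apply, ArithmeticFunction.one_apply] at h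
  have h2 : ∑ p ∈ m.divisorsAntidiagonal, (ArithmeticFunction.moebius p.2 : ℤ) =
      if m = 1 then 1 else 0 := by
    rw [← h]
    refine Finset.sum_congr rfl ?_
    intro p hp
    have hp1 : p.1 ≠ 0 := by
      intro h0
      rw [Nat.mem_divisorsAntidiagonal] at hp
      exact hp.2 (by rw [← hp.1, h0, zero_mul])
    simp [ArithmeticFunction.natCoe_apply, ArithmeticFunction.zeta_apply, hp1]
  rw [← Int.cast_sum, h2]
  split_ifs <;> simp

theorem TRa (L : ℝ) (hL : 0 < L) (a1 b1 a2 b2 η g : ℝ → ℝ) (u0 : ℝ)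
    (h : ∀ y t : ℝ, 0 ≤ y → 0 ≤ t → y + t < u0 → a1 y * b1 t + a2 y * b2 t = g (y + t))
    (hη : ∀ u, u0 ≤ u → η u = 0) (d : ℕ) :
    Ed 2 L a1 b1 η d + Ed 2 L a2 b2 η d = g 0 * η 0 := by
  classical
  obtain ⟨N, hN⟩ := exists_nat_gt (Real.exp (u0 * L))
  -- the set of pairs
  set s : Finset (ℕ × ℕ) := (Finset.Icc 1 (N + 1)).biUnion (fun m => m.divisorsAntidiagonal) with hs
  have hout : ∀ p : ℕ × ℕ, p ∉ s → p.1.Coprime 2 ∧ p.2.Coprime 2 →
      η ((Real.log p.1 + Real.log p.2) / L) = 0 := by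
    intro p hp hc
    have h1 : p.1 ≠ 0 := by
      intro h0; rw [h0] at hc; simp at hc
    have h2 : p.2 ≠ 0 := by
      intro h0; rw [h0] at hc; simp at hc
    have hnot : ¬ (p.1 * p.2 ≤ N + 1) := by
      intro hle
      apply hp
      rw [hs, Finset.mem_biUnion]
      exact ⟨p.1 * p.2, Finset.mem_Icc.mpr ⟨Nat.one_le_iff_ne_zero.mpr (Nat.mul_ne_zero h1 h2), hle⟩,
        Nat.mem_divisorsAntidiagonal.mpr ⟨rfl, Nat.mul_ne_zero h1 h2⟩⟩
    apply hη
    rw [le_div_iff₀ hL, ← Real.log_mul (by exact_mod_cast h1) (by exact_mod_cast h2)]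
    rw [Real.le_log_iff_exp_le (by positivity)]
    rw [not_le] at hnot
    have : (N : ℝ) ≤ (p.1 : ℝ) * p.2 := by
      have : N ≤ p.1 * p.2 := by omega
      exact_mod_cast this
    linarith
  have e1 : ∀ a b : ℝ → ℝ, Ed 2 L a b η d = ∑ p ∈ s, (if p.1.Coprime 2 ∧ p.2.Coprime 2 then
    ((ArithmeticFunction.moebius p.2 : ℤ) : ℝ) * js (8 * (d : ℤ)) (p.1 * p.2) /
      Real.sqrt ((p.1 : ℝ) * p.2) * a (Real.log p.1 / L) * b (Real.log p.2 / L) *
      η ((Real.log p.1 + Real.log p.2) / L) else 0) := by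
    intro a b
    unfold Ed
    apply tsum_eq_sum
    intro p hp
    split_ifs with hc
    · rw [hout p hp hc, mul_zero]
    · rfl
  rw [e1, e1, ← Finset.sum_add_distrib]
  have e2 : ∀ p ∈ s, ((if p.1.Coprime 2 ∧ p.2.Coprime 2 then
    ((ArithmeticFunction.moebius p.2 : ℤ) : ℝ) * js (8 * (d : ℤ)) (p.1 * p.2) /
      Real.sqrt ((p.1 : ℝ) * p.2) * a1 (Real.log p.1 / L) * b1 (Real.log p.2 / L) *
      η ((Real.log p.1 + Real.log p.2) / L) else 0) + (if p.1.Coprime 2 ∧ p.2.Coprime 2 then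
    ((ArithmeticFunction.moebius p.2 : ℤ) : ℝ) * js (8 * (d : ℤ)) (p.1 * p.2) /
      Real.sqrt ((p.1 : ℝ) * p.2) * a2 (Real.log p.1 / L) * b2 (Real.log p.2 / L) *
      η ((Real.log p.1 + Real.log p.2) / L) else 0)) =
      ((ArithmeticFunction.moebius p.2 : ℤ) : ℝ) * (if (p.1 * p.2).Coprime 2 then
        js (8 * (d : ℤ)) (p.1 * p.2) / Real.sqrt (((p.1 * p.2 : ℕ) : ℝ)) *
          g (Real.log ((p.1 * p.2 : ℕ) : ℝ) / L) * η (Real.log ((p.1 * p.2 : ℕ) : ℝ) / L) else 0) := by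
    intro p _
    by_cases hc : p.1.Coprime 2 ∧ p.2.Coprime 2
    · have hc' : (p.1 * p.2).Coprime 2 := Nat.Coprime.mul_left hc.1 hc.2
      rw [if_pos hc, if_pos hc, if_pos hc']
      have h1 : p.1 ≠ 0 := by
        intro h0; rw [h0] at hc; simp at hc
      have h2 : p.2 ≠ 0 := by
        intro h0; rw [h0] at hc; simp at hc
      have hlog : Real.log ((p.1 * p.2 : ℕ) : ℝ) = Real.log p.1 + Real.log p.2 := by
        rw [Nat.cast_mul, Real.log_mul (by exact_mod_cast h1) (by exact_mod_cast h2)]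
      rw [hlog, Nat.cast_mul]
      by_cases hu : (Real.log p.1 + Real.log p.2) / L < u0
      · have h3 : 0 ≤ Real.log p.1 / L :=
          div_nonneg (Real.log_nonneg (by exact_mod_cast Nat.one_le_iff_ne_zero.mpr h1)) hL.le
        have h4 : 0 ≤ Real.log p.2 / L :=
          div_nonneg (Real.log_nonneg (by exact_mod_cast Nat.one_le_iff_ne_zero.mpr h2)) hL.le
        have h5 := h (Real.log p.1 / L) (Real.log p.2 / L) h3 h4 (by rw [← add_div]; exact hu)
        rw [← add_div] at h5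
        rw [← h5]
        ring
      · rw [hη _ (not_lt.mp hu)]
        ring
    · have hc' : ¬ (p.1 * p.2).Coprime 2 := by
        intro h'
        exact hc ⟨Nat.Coprime.coprime_mul_right h', Nat.Coprime.coprime_mul_left h'⟩
      rw [if_neg hc, if_neg hc, if_neg hc']
      ring
  rw [Finset.sum_congr rfl e2, hs, Finset.sum_biUnion]
  · have e3 : ∀ m ∈ Finset.Icc 1 (N + 1), (∑ p ∈ m.divisorsAntidiagonal,
      ((ArithmeticFunction.moebius p.2 : ℤ) : ℝ) * (if (p.1 * p.2).Coprime 2 then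
        js (8 * (d : ℤ)) (p.1 * p.2) / Real.sqrt (((p.1 * p.2 : ℕ) : ℝ)) *
          g (Real.log ((p.1 * p.2 : ℕ) : ℝ) / L) * η (Real.log ((p.1 * p.2 : ℕ) : ℝ) / L) else 0)) =
        if m = 1 then g 0 * η 0 else 0 := by
      intro m _
      have : ∀ p ∈ m.divisorsAntidiagonal,
        ((ArithmeticFunction.moebius p.2 : ℤ) : ℝ) * (if (p.1 * p.2).Coprime 2 then
        js (8 * (d : ℤ)) (p.1 * p.2) / Real.sqrt (((p.1 * p.2 : ℕ) : ℝ)) *
          g (Real.log ((p.1 * p.2 : ℕ) : ℝ) / L) * η (Real.log ((p.1 * p.2 : ℕ) : ℝ) / L) else 0) =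
        ((ArithmeticFunction.moebius p.2 : ℤ) : ℝ) * (if m.Coprime 2 then
        js (8 * (d : ℤ)) m / Real.sqrt (m : ℝ) *
          g (Real.log (m : ℝ) / L) * η (Real.log (m : ℝ) / L) else 0) := by
        intro p hp
        rw [(Nat.mem_divisorsAntidiagonal.mp hp).1]
      rw [Finset.sum_congr rfl this, ← Finset.sum_mul, sum_mu]
      by_cases hm : m = 1
      · subst hm
        simp [js]
      · simp [hm]
    rw [Finset.sum_congr rfl e3]
    rw [Finset.sum_ite_eq' (Finset.Icc 1 (N + 1)) 1]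
    rw [if_pos (Finset.mem_Icc.mpr ⟨le_refl _, by omega⟩)]
  · intro m _ n _ hmn
    rw [Function.onFun, Finset.disjoint_left]
    intro p hp hp'
    exact hmn ((Nat.mem_divisorsAntidiagonal.mp hp).1.symm.trans
      (Nat.mem_divisorsAntidiagonal.mp hp').1)

end Pool.Agent.H615R2.RZTRa
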